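import Pool.Agent.Helper17.SA.St2

set_option autoImplicit false

namespace Pool.Agent.Helper40.SA

open Equiv Pool.Agent.Helper17.SA

theorem pv (n : ℕ) : padicValNat 2 n.factorial = n - (Nat.digits 2 n).sum := by
  have : Fact (Nat.Prime 2) := ⟨Nat.prime_two⟩
  have h := sub_one_mul_padicValNat_factorial (p := 2) n
  simpa using h

theorem pNSM : StNSM := by
  refine ⟨?_, ?_, ?_, ?_, ?_, ?_⟩
  · intro m hm
    rcases hm with h | h | h | h | ⟨h1, h2⟩
    · subst h; decide +kernel
    · subst h; decide +kernel
    · subst h; decide +kernel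
    · subst h; decide +kernel
    · interval_cases m <;> decide +kernel
  · intro m hm
    rcases hm with h | h <;> subst h <;> decide +kernel
  · decide +kernel
  · decide +kernel
  · intro m h1 h2 h3
    interval_cases m
    all_goals first | exact absurd rfl h3 | decide +kernel
  · refine ⟨?_, ?_, ?_, ?_, ?_⟩ <;> rw [pv] <;> norm_num

end Pool.Agent.Helper40.SA
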