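import Pool.Agent.Helper17.SA.St2

set_option autoImplicit false

open scoped Pointwise

namespace Pool.Agent.Helper40.SA

open Equiv Pool.Agent.Helper17.SA

theorem bad_conj {G : Type} [Group G] (H : Subgroup G) (g : G) :
    bad (MulAut.conj g • H) = bad H := by
  unfold bad
  symm
  apply Nat.card_congr
  refine (MulAut.conj g).toEquiv.subtypeEquiv ?_
  intro x
  have hmem : ∀ y : G, y ∈ MulAut.conj g • H ↔ g⁻¹ * y * g ∈ H := by
    intro y
    rw [Subgroup.mem_pointwise_smul_iff_inv_smul_mem, ← map_inv]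
    simp [MulAut.smul_def, MulAut.conj_apply]
  constructor
  · rintro ⟨y, hy, hy1, hy2⟩
    refine ⟨g * y * g⁻¹, ?_, ?_, ?_⟩
    · rw [hmem]
      have : g⁻¹ * (g * y * g⁻¹) * g = y := by group
      rw [this]
      exact hy
    · intro h
      apply hy1
      have : y = g⁻¹ * (g * y * g⁻¹) * g := by group
      rw [this, h]
      group
    · rw [hmem]
      have : g⁻¹ * ((MulAut.conj g).toEquiv x * (g * y * g⁻¹) * ((MulAut.conj g).toEquiv x)⁻¹) * g
          = x * y * x⁻¹ := by
        have h1 : (MulAut.conj g).toEquiv x = g * x * g⁻¹ := rfl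
        rw [h1]
        group
      rw [this]
      exact hy2
  · rintro ⟨y, hy, hy1, hy2⟩
    rw [hmem] at hy hy2
    refine ⟨g⁻¹ * y * g, hy, ?_, ?_⟩
    · intro h
      apply hy1
      have : y = g * (g⁻¹ * y * g) * g⁻¹ := by group
      rw [this, h]
      group
    · have : g⁻¹ * ((MulAut.conj g).toEquiv x * y * ((MulAut.conj g).toEquiv x)⁻¹) * g
          = x * (g⁻¹ * y * g) * x⁻¹ := by
        have h1 : (MulAut.conj g).toEquiv x = g * x * g⁻¹ := rfl
        rw [h1]
        group
      rw [← this]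
      exact hy2

theorem card_syl (m : ℕ) (P : Sylow 2 (Perm (Fin m))) :
    Nat.card (P : Subgroup (Perm (Fin m))) = 2 ^ padicValNat 2 m.factorial := by
  have : Fact (Nat.Prime 2) := ⟨Nat.prime_two⟩
  have h := P.card_eq_multiplicity
  have h2 : Nat.card (Perm (Fin m)) = m.factorial := by
    rw [Nat.card_eq_fintype_card, Fintype.card_perm, Fintype.card_fin]
  rw [h2, Nat.factorization_def _ Nat.prime_two] at h
  exact h

theorem pSYL : StQA → StQB → StSYL := by
  intro hA hB m P
  have : Fact (Nat.Prime 2) := ⟨Nat.prime_two⟩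
  obtain ⟨P0, hP0⟩ := (hA m).exists_le_sylow
  have hc0 := card_syl m P0
  have hle : Nat.card (P0 : Subgroup (Perm (Fin m))) ≤ Nat.card (Q0 m) := by
    rw [hc0]; exact hB m
  have heq : Q0 m = (P0 : Subgroup (Perm (Fin m))) :=
    Subgroup.eq_of_le_of_card_ge hP0 hle
  refine ⟨card_syl m P, ?_, ?_⟩
  · rw [heq]; exact hc0
  · obtain ⟨g, hg⟩ := MulAction.exists_smul_eq (Perm (Fin m)) P P0
    have h1 : (P0 : Subgroup (Perm (Fin m))) = MulAut.conj g • (P : Subgroup (Perm (Fin m))) := by
      rw [← hg]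
      rfl
    rw [heq, h1, bad_conj]

end Pool.Agent.Helper40.SA
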