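import Pool.Agent.Helper17.SA.St3
import Pool.Agent.Helper78.SA.M_CM

/-!
# Project SA, module CM2: certificates for m = 7, 9, 10, 12
-/

set_option autoImplicit false

namespace Pool.Agent.Helper40.SA

open Equiv Pool.Agent.Helper17.SA Pool.Agent.Helper78.SA

set_option maxRecDepth 100000

theorem e7 : (dbt7.all fun L => tst 7 L) = true := by decide +kernel
theorem e9 : (dbt9.all fun L => tst 9 L) = true := by decide +kernel
theorem e10 : (dbt10.all fun L => tst 10 L) = true := by decide +kernel
theorem e12 : (dbt12.all fun L => tst 12 L) = true := by decide +kernel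

theorem f7 : (dbt7.map (keyf 7)).Nodup := by decide +kernel
theorem f9 : (dbt9.map (keyf 9)).Nodup := by decide +kernel
theorem f10 : (dbt10.map (keyf 10)).Nodup := by decide +kernel
theorem f12 : (dbt12.map (keyf 12)).Nodup := by decide +kernel

theorem pCM2 : StCER → StRIG → StKEY → StCM2 := by
  intro cer hrig hkey m hm
  rcases hm with rfl | rfl | rfl | rfl
  · exact gen cer hrig hkey 7 dbt7 e7 f7
  · exact gen cer hrig hkey 9 dbt9 e9 f9
  · exact gen cer hrig hkey 10 dbt10 e10 f10
  · exact gen cer hrig hkey 12 dbt12 e12 f12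

end Pool.Agent.Helper40.SA
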